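import Mathlib
open MvPolynomial Matrix Filter Topology TensorProduct
namespace Pool.Agent.H.MP_fbf57d_al

lemma amalg0 {R S : Type} [CommRing R] [CommRing S] (f g : R →+* S) (J : Ideal S) (hJ : J ≠ ⊤)
    (h : J.comap f = J.comap g) : ∃ (T : Type) (_ : CommRing T) (_ : Nontrivial T) (α β : S →+* T),
      α.comp f = β.comp g ∧ (∀ s ∈ J, α s = 0) ∧ ∀ s ∈ J, β s = 0 := by
  obtain ⟨p, hp⟩ := Ideal.nonempty_minimalPrimes (Ideal.comap_ne_top f hJ)
  obtain ⟨q1, a1, a2, a3⟩ := Ideal.exists_comap_eq_of_mem_minimalPrimes f p hp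
  obtain ⟨q2, b1, b2, b3⟩ := Ideal.exists_comap_eq_of_mem_minimalPrimes g p (h ▸ hp)
  let _ : Algebra (R ⧸ p) (S ⧸ q1) := (Ideal.quotientMap q1 f a3.ge).toAlgebra
  let _ : Algebra (R ⧸ p) (S ⧸ q2) := (Ideal.quotientMap q2 g b3.ge).toAlgebra
  have hn : Nontrivial ((S ⧸ q1) ⊗[R ⧸ p] (S ⧸ q2)) :=
    Algebra.TensorProduct.nontrivial_of_algebraMap_injective_of_isDomain _ _ _
      (Ideal.quotientMap_injective' a3.le) (Ideal.quotientMap_injective' b3.le)
  refine ⟨(S ⧸ q1) ⊗[R ⧸ p] (S ⧸ q2), inferInstance, hn,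
    (Algebra.TensorProduct.includeLeftRingHom).comp (Ideal.Quotient.mk q1),
    (Algebra.TensorProduct.includeRight.toRingHom).comp (Ideal.Quotient.mk q2), ?_, ?_, ?_⟩
  · ext r
    have h1 : Ideal.Quotient.mk q1 (f r) = algebraMap (R ⧸ p) _ (Ideal.Quotient.mk p r) := rfl
    have h2 : Ideal.Quotient.mk q2 (g r) = algebraMap (R ⧸ p) _ (Ideal.Quotient.mk p r) := rfl
    simp only [RingHom.comp_apply, h1, h2]
    exact ((Algebra.TensorProduct.includeRight (R := R ⧸ p) (A := S ⧸ q1)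
      (B := S ⧸ q2)).commutes _).symm
  · intro s hs
    rw [RingHom.comp_apply, Ideal.Quotient.eq_zero_iff_mem.2 (a2 hs), map_zero]
  · intro s hs
    rw [RingHom.comp_apply, Ideal.Quotient.eq_zero_iff_mem.2 (b2 hs), map_zero]

lemma amalg {ι κ : Type} [Finite ι] (V : Set (ι → ℂ)) (hne : V.Nonempty)
    (f g : MvPolynomial κ ℂ →ₐ[ℂ] MvPolynomial ι ℂ)
    (h : ∀ p, (∀ z ∈ V, aeval z (f p) = 0) ↔ ∀ z ∈ V, aeval z (g p) = 0) :
    ∃ z w : ι → ℂ, (∀ s ∈ vanishingIdeal ℂ V, aeval z s = 0) ∧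
      (∀ s ∈ vanishingIdeal ℂ V, aeval w s = 0) ∧ ∀ p, aeval z (f p) = aeval w (g p) := by
  obtain ⟨T, _, _, α, β, h1, h2, h3⟩ := amalg0 (f : MvPolynomial κ ℂ →+* MvPolynomial ι ℂ)
    (g : MvPolynomial κ ℂ →+* MvPolynomial ι ℂ) (vanishingIdeal ℂ V)
    (fun ht => by
      obtain ⟨z, hz⟩ := hne
      have : (1 : MvPolynomial ι ℂ) ∈ vanishingIdeal ℂ V := ht ▸ Submodule.mem_top
      simpa using this z hz)
    (Ideal.ext h)
  let Ψ : MvPolynomial (ι ⊕ ι) ℂ →+* T :=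
    eval₂Hom (α.comp C) (Sum.elim (fun i => α (X i)) fun i => β (X i))
  have hc : ∀ c : ℂ, α (C c) = β (C c) := fun c => by
    have := congrArg (fun φ : MvPolynomial κ ℂ →+* T => φ (C c)) h1
    simpa using this
  have e1 : Ψ.comp (rename Sum.inl : MvPolynomial ι ℂ →ₐ[ℂ] MvPolynomial (ι ⊕ ι) ℂ).toRingHom = α := by
    ext <;> simp [Ψ]
  have e2 : Ψ.comp (rename Sum.inr : MvPolynomial ι ℂ →ₐ[ℂ] MvPolynomial (ι ⊕ ι) ℂ).toRingHom = β := by
    ext <;> simp [Ψ, hc]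
  obtain ⟨m, hm, hm'⟩ := Ideal.exists_le_maximal (RingHom.ker Ψ) (RingHom.ker_ne_top Ψ)
  obtain ⟨x, rfl⟩ := isMaximal_iff_eq_vanishingIdeal_singleton.1 hm
  have key : ∀ s, Ψ s = 0 → aeval x s = 0 := fun s hs => hm' hs x rfl
  refine ⟨x ∘ Sum.inl, x ∘ Sum.inr, fun s hs => ?_, fun s hs => ?_, fun p => ?_⟩
  · rw [← aeval_rename]
    exact key _ ((congrArg (fun φ : _ →+* T => φ s) e1).trans (h2 s hs))
  · rw [← aeval_rename]
    exact key _ ((congrArg (fun φ : _ →+* T => φ s) e2).trans (h3 s hs))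
  · rw [← aeval_rename, ← aeval_rename, ← sub_eq_zero, ← map_sub]
    refine key _ ?_
    rw [map_sub, sub_eq_zero]
    exact ((congrArg (fun φ : _ →+* T => φ (f p)) e1).trans
      (congrArg (fun φ : _ →+* T => φ p) h1)).trans (congrArg (fun φ : _ →+* T => φ (g p)) e2).symm

variable {n : ℕ}

/-- the product with structure constants `c` -/
def mul {R : Type} [CommRing R] (c : Fin n → Fin n → Fin n → R) (a b : Fin n → R) : Fin n → R :=
  fun k => ∑ i, ∑ j, c i j k * a i * b j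

def Eqn {R : Type} [CommRing R] (c : Fin n → Fin n → Fin n → R) (g : Matrix (Fin n) (Fin n) R) :
    Prop := ∀ i j k, ∑ l, g k l * c i j l = ∑ p, ∑ q, c p q k * g p i * g q j

lemma eqn_iff {R : Type} [CommRing R] (c : Fin n → Fin n → Fin n → R)
    (g : Matrix (Fin n) (Fin n) R) :
    (∀ a b, g *ᵥ mul c a b = mul c (g *ᵥ a) (g *ᵥ b)) ↔ Eqn c g := by
  constructor
  · intro h i j k
    have := congrFun (h (Pi.single i 1) (Pi.single j 1)) k
    simpa [mul, mulVec, dotProduct, Pi.single_apply] using this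
  · intro h a b
    funext k
    have e1 : (g *ᵥ mul c a b) k = ∑ i, ∑ j, (∑ l, g k l * c i j l) * a i * b j := by
      simp only [mul, mulVec, dotProduct, Finset.mul_sum, Finset.sum_mul]
      rw [Finset.sum_comm]
      refine Finset.sum_congr rfl fun i _ => ?_
      rw [Finset.sum_comm]
      exact Finset.sum_congr rfl fun j _ => Finset.sum_congr rfl fun l _ => by ring
    rw [e1]
    simp only [h _ _ k, mul, mulVec, dotProduct, Finset.mul_sum, Finset.sum_mul]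
    have sw : ∀ F : Fin n → Fin n → Fin n → Fin n → R,
        ∑ i, ∑ j, ∑ p, ∑ q, F i j p q = ∑ p, ∑ q, ∑ j, ∑ i, F i j p q := fun F => by
      calc _ = ∑ i, ∑ p, ∑ j, ∑ q, F i j p q := Finset.sum_congr rfl fun i _ => Finset.sum_comm
        _ = ∑ p, ∑ i, ∑ j, ∑ q, F i j p q := Finset.sum_comm
        _ = ∑ p, ∑ j, ∑ i, ∑ q, F i j p q := Finset.sum_congr rfl fun i _ => Finset.sum_comm
        _ = ∑ p, ∑ j, ∑ q, ∑ i, F i j p q := Finset.sum_congr rfl fun i _ =>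
          Finset.sum_congr rfl fun i _ => Finset.sum_comm
        _ = _ := Finset.sum_congr rfl fun i _ => Finset.sum_comm
    rw [sw]
    refine Finset.sum_congr rfl fun p _ => Finset.sum_congr rfl fun q _ =>
      Finset.sum_congr rfl fun j _ => Finset.sum_congr rfl fun i _ => by ring

/-- the automorphism group -/
def Aut {R : Type} [CommRing R] (c : Fin n → Fin n → Fin n → R) : Subgroup (GL (Fin n) R) where
  carrier := {g | ∀ a b, g.1 *ᵥ mul c a b = mul c (g.1 *ᵥ a) (g.1 *ᵥ b)}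
  one_mem' := by intro a b; simp
  mul_mem' := by
    intro g h hg hh a b
    simp only [Units.val_mul, ← mulVec_mulVec]
    rw [hh, hg]
  inv_mem' := by
    intro g hg a b
    have h1 : ∀ v, (g⁻¹).1 *ᵥ (g.1 *ᵥ v) = v := fun v => by rw [mulVec_mulVec, g.inv_mul, one_mulVec]
    have h2 : ∀ v, g.1 *ᵥ ((g⁻¹).1 *ᵥ v) = v := fun v => by rw [mulVec_mulVec, g.mul_inv, one_mulVec]
    have := hg ((g⁻¹).1 *ᵥ a) ((g⁻¹).1 *ᵥ b)
    rw [h2, h2] at this
    rw [← this, h1]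

def orb {R : Type} [CommRing R] (G : Subgroup (GL (Fin n) R)) (x : Fin n → R) : Set (Fin n → R) :=
  {y | ∃ g ∈ G, g.1 *ᵥ x = y}

lemma orb_sub (G : Subgroup (GL (Fin n) ℂ)) {x z : Fin n → ℂ} (h : z ∈ closure (orb G x)) :
    closure (orb G z) ⊆ closure (orb G x) := by
  refine closure_minimal ?_ isClosed_closure
  rintro _ ⟨g, hg, rfl⟩
  refine map_mem_closure (f := fun v => g.1 *ᵥ v) (by fun_prop) h ?_
  rintro _ ⟨k, hk, rfl⟩
  exact ⟨g * k, G.mul_mem hg hk, by simp⟩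

theorem cplx (c : Fin n → Fin n → Fin n → ℂ) {x z : Fin n → ℂ}
    (h1 : z ∈ closure (orb (Aut c) x)) (h2 : x ∈ closure (orb (Aut c) z)) : z ∈ orb (Aut c) x := by
  let pt : GL (Fin n) ℂ → (Bool × Fin n × Fin n → ℂ) := fun g v =>
    if v.1 then g.1 v.2.1 v.2.2 else (g⁻¹).1 v.2.1 v.2.2
  let F : (Fin n → ℂ) → MvPolynomial (Fin n) ℂ →ₐ[ℂ] MvPolynomial (Bool × Fin n × Fin n) ℂ :=
    fun x => aeval fun k => ∑ l, X (true, k, l) * C (x l)
  have ev : ∀ (w : Bool × Fin n × Fin n → ℂ) x p, aeval w (F x p) =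
      aeval ((Matrix.of fun k l => w (true, k, l)) *ᵥ x) p := fun w x p => by
    rw [← AlgHom.comp_apply]
    congr 1
    ext k
    simp [F, mulVec, dotProduct]
  have ev' : ∀ g x p, aeval (pt g) (F x p) = aeval (g.1 *ᵥ x) p := fun g x p => ev _ _ _
  have cl : ∀ x z : Fin n → ℂ, z ∈ closure (orb (Aut c) x) → ∀ p,
      (∀ w ∈ pt '' Aut c, aeval w (F x p) = 0) → ∀ w ∈ pt '' Aut c, aeval w (F z p) = 0 := by
    rintro x z h p hp _ ⟨g, hg, rfl⟩
    rw [ev']
    have h3 : closure (orb (Aut c) x) ⊆ {v | aeval v p = 0} := by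
      refine closure_minimal ?_ (isClosed_eq ?_ continuous_const)
      · rintro _ ⟨k, hk, rfl⟩
        exact (ev' k x p).symm.trans (hp _ ⟨k, hk, rfl⟩)
      · simpa only [aeval_eq_eval] using MvPolynomial.continuous_eval p
    exact h3 (orb_sub _ h (subset_closure ⟨g, hg, rfl⟩))
  obtain ⟨w, w', a1, a2, a3⟩ := amalg (pt '' Aut c) ⟨_, 1, (Aut c).one_mem, rfl⟩ (F x) (F z)
    fun p => ⟨cl x z h1 p, cl z x h2 p⟩
  have mk : ∀ w : Bool × Fin n × Fin n → ℂ, (∀ s ∈ vanishingIdeal ℂ (pt '' Aut c), aeval w s = 0) →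
      ∃ g ∈ Aut c, g.1 = Matrix.of fun k l => w (true, k, l) := by
    intro w hw
    have e1 : (Matrix.of fun k l => w (true, k, l)) * (Matrix.of fun k l => w (false, k, l)) = 1 := by
      ext i j
      have := hw (∑ l, X (true, i, l) * X (false, l, j) - C ((1 : Matrix _ _ ℂ) i j)) (by
        rintro _ ⟨g, -, rfl⟩
        have := congrFun (congrFun g.mul_inv i) j
        rw [Matrix.mul_apply] at this
        simp only [map_sub, map_sum, map_mul, aeval_X, aeval_C, pt, if_true, Bool.false_eq_true,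
          if_false, this]
        simp)
      simpa [Matrix.mul_apply, sub_eq_zero] using this
    refine ⟨⟨_, _, e1, mul_eq_one_comm.1 e1⟩, (eqn_iff c _).2 fun i j k => ?_, rfl⟩
    have := hw (∑ l, X (true, k, l) * C (c i j l) -
      ∑ p, ∑ q, C (c p q k) * X (true, p, i) * X (true, q, j)) (by
        rintro _ ⟨g, hg, rfl⟩
        have := (eqn_iff c _).1 hg i j k
        simpa [pt, sub_eq_zero] using this)
    simpa [sub_eq_zero] using this
  obtain ⟨g, hg, e1⟩ := mk w a1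
  obtain ⟨g', hg', e2⟩ := mk w' a2
  have e3 : g.1 *ᵥ x = g'.1 *ᵥ z := funext fun k => by
    have := a3 (X k)
    rwa [ev, ev, aeval_X, aeval_X, ← e1, ← e2] at this
  refine ⟨g'⁻¹ * g, (Aut c).mul_mem ((Aut c).inv_mem hg') hg, ?_⟩
  rw [Units.val_mul, ← mulVec_mulVec, e3, mulVec_mulVec, g'.inv_mul, one_mulVec]

end Pool.Agent.H.MP_fbf57d_al
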