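import Mathlib
import Pool.Agent.H.MP_fbf57d_al.A
open Matrix Filter Topology
namespace Pool.Agent.H.MP_fbf57d_al

variable {n : ℕ}

lemma inj_near {T E : Type} [TopologicalSpace T] [NormedAddCommGroup E] [NormedSpace ℂ E]
    [FiniteDimensional ℂ E] (L : T → E → E) (hl : ∀ t, IsLinearMap ℂ (L t))
    (hc : ∀ y, Continuous fun t => L t y) (t₀ : T) (h0 : ∀ y, L t₀ y = y + y) :
    ∀ᶠ t in 𝓝 t₀, ∀ y, L t y = 0 → y = 0 := by
  let M : T → E →L[ℂ] E := fun t => LinearMap.toContinuousLinearMap ((hl t).mk' _)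
  have h1 : Continuous M := continuous_clm_apply.2 hc
  have h2 : Function.Injective (M t₀) := (injective_iff_map_eq_zero _).2 fun y hy => by
    have : y + y = 0 := (h0 y).symm.trans hy
    rw [← two_smul ℂ] at this
    simpa using this
  filter_upwards [(ContinuousLinearMap.isOpen_injective.preimage h1).mem_nhds h2] with t ht
  exact (injective_iff_map_eq_zero (M t)).1 ht

open scoped Matrix.Norms.Operator in
lemma sq_nhds : map (fun k : Matrix (Fin n) (Fin n) ℂ => k * k) (𝓝 1) = 𝓝 1 := by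
  have h := (hasStrictFDerivAt_id (𝕜 := ℂ) (1 : Matrix (Fin n) (Fin n) ℂ)).mul'
    (hasStrictFDerivAt_id (𝕜 := ℂ) 1)
  have h2 : HasStrictFDerivAt (fun k : Matrix (Fin n) (Fin n) ℂ => k * k)
      ((ContinuousLinearEquiv.smulLeft (R₁ := ℂ) (M₁ := Matrix (Fin n) (Fin n) ℂ)
        (Units.mk0 (2:ℂ) two_ne_zero) : _ ≃L[ℂ] _) : _ →L[ℂ] _) 1 := by
    refine h.congr_fderiv ?_
    ext1 v
    show _ = (2:ℂ) • v
    rw [two_smul]; simp; rfl
  have h3 := h2.map_nhds_eq_of_equiv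
  simp only [mul_one] at h3
  exact h3

noncomputable def cj : Matrix (Fin n) (Fin n) ℂ →+* Matrix (Fin n) (Fin n) ℂ :=
  (starRingEnd ℂ).mapMatrix

lemma cj_cj (g : Matrix (Fin n) (Fin n) ℂ) : cj (cj g) = g := by ext; simp [cj]

lemma cj_vec (g : Matrix (Fin n) (Fin n) ℂ) (v : Fin n → ℂ) : star (g *ᵥ v) = cj g *ᵥ star v := by
  ext; simp [cj, mulVec, dotProduct]

lemma cj_cont : Continuous (cj : Matrix (Fin n) (Fin n) ℂ → _) :=
  continuous_id.matrix_map Complex.continuous_conj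

lemma mul_add' (c d : Fin n → Fin n → Fin n → ℂ) (a b : Fin n → ℂ) :
    mul (c + d) a b = mul c a b + mul d a b := by
  ext; simp [mul, add_mul, Finset.sum_add_distrib]

lemma mul_smul' (r : ℂ) (c : Fin n → Fin n → Fin n → ℂ) (a b : Fin n → ℂ) :
    mul (r • c) a b = r • mul c a b := by
  ext; simp [mul, Finset.mul_sum, mul_assoc]

noncomputable def mulL (c : Fin n → Fin n → Fin n → ℂ) :
    (Fin n → ℂ) →ₗ[ℂ] (Fin n → ℂ) →ₗ[ℂ] (Fin n → ℂ) :=
  LinearMap.mk₂ ℂ (mul c)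
    (fun _ _ _ => by ext; simp [mul, add_mul, mul_add, Finset.sum_add_distrib])
    (fun _ _ _ => by ext; simp [mul, Finset.mul_sum, mul_assoc, mul_left_comm])
    (fun _ _ _ => by ext; simp [mul, mul_add, Finset.sum_add_distrib])
    (fun _ _ _ => by ext; simp [mul, Finset.mul_sum, mul_left_comm])

lemma mul_of (B : (Fin n → ℂ) →ₗ[ℂ] (Fin n → ℂ) →ₗ[ℂ] (Fin n → ℂ)) (a b : Fin n → ℂ) :
    mul (fun i j => B (Pi.single i 1) (Pi.single j 1)) a b = B a b := by
  have : mulL (fun i j => B (Pi.single i 1) (Pi.single j 1)) = B := by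
    ext i j l
    simp [mulL, mul, Pi.single_apply]
  exact congrArg (fun B : (Fin n → ℂ) →ₗ[ℂ] (Fin n → ℂ) →ₗ[ℂ] (Fin n → ℂ) => B a b) this

def RAut (c : Fin n → Fin n → Fin n → ℂ) : Subgroup (GL (Fin n) ℂ) where
  carrier := {g | g ∈ Aut c ∧ cj g.1 = g.1}
  one_mem' := ⟨(Aut c).one_mem, map_one cj⟩
  mul_mem' := fun {g h} hg hh => ⟨(Aut c).mul_mem hg.1 hh.1, by simp [hg.2, hh.2]⟩
  inv_mem' := fun {g} hg => ⟨(Aut c).inv_mem hg.1, by
    have : cj (g⁻¹).1 * g.1 = 1 := by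
      conv_lhs => rw [← hg.2]
      rw [← map_mul, g.inv_mul, map_one]
    exact (Units.eq_inv_of_mul_eq_one_right this)⟩

theorem near (c : Fin n → Fin n → Fin n → ℂ) (hc : ∀ i j k, starRingEnd ℂ (c i j k) = c i j k) :
    ∀ᶠ h in 𝓝 (1 : GL (Fin n) ℂ), h ∈ Aut c → ∀ y, star y = y → star (h.1 *ᵥ y) = h.1 *ᵥ y →
      ∃ g ∈ RAut c, g.1 *ᵥ y = h.1 *ᵥ y := by
  have i1 := inj_near (fun (k : Matrix (Fin n) (Fin n) ℂ) (v : Fin n → ℂ) => k *ᵥ v + v)
    (fun k => ⟨fun a b => by rw [mulVec_add]; abel, fun r a => by rw [mulVec_smul, smul_add]⟩)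
    (fun v => by fun_prop) 1 (by simp)
  have i2 := inj_near (fun (k : Matrix (Fin n) (Fin n) ℂ) (D : Fin n → Fin n → ℂ) =>
      of.symm (k * of D * cj k + of D))
    (fun k => ⟨fun a b => by
      ext; simp [Matrix.mul_apply, mul_add, add_mul, Finset.sum_add_distrib]; ring,
      fun r a => by
      ext; simp [Matrix.mul_apply, mul_add, Finset.mul_sum, mul_assoc, mul_left_comm]⟩)
    (fun D => ((continuous_id.matrix_mul continuous_const).matrix_mul cj_cont).add continuous_const)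
    1 (fun D => by simp)
  have i3 := inj_near (fun (k : Matrix (Fin n) (Fin n) ℂ) (D : Fin n → Fin n → Fin n → ℂ) i j =>
      k *ᵥ mul D (Pi.single i 1) (Pi.single j 1) +
        mul D (k *ᵥ Pi.single i 1) (k *ᵥ Pi.single j 1))
    (fun k => ⟨fun a b => by
      funext i j; simp only [mul_add', mulVec_add, Pi.add_apply]; abel,
      fun r a => by
      funext i j; simp only [mul_smul', mulVec_smul, Pi.smul_apply, smul_add]⟩)
    (fun D => by unfold mul; fun_prop)
    1 (fun D => by ext i j l; simp [mul, Pi.single_apply, Matrix.one_apply])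
  have h1 := image_mem_map (m := fun k : Matrix (Fin n) (Fin n) ℂ => k * k) (i1.and (i2.and i3))
  rw [sq_nhds] at h1
  have h2 : Continuous fun h : GL (Fin n) ℂ => (h⁻¹).1 * cj h.1 :=
    Units.continuous_coe_inv.matrix_mul (cj_cont.comp Units.continuous_val)
  have h3 := h2.continuousAt (x := 1) (by
    have e : ((1 : GL (Fin n) ℂ)⁻¹).1 * cj (1 : GL (Fin n) ℂ).1 = 1 := by simp
    simp only [e]
    exact h1)
  filter_upwards [h3] with h hh hA y hy hy'
  obtain ⟨k, ⟨k1, k2, k3⟩, hk⟩ := hh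
  simp only at hk
  have a1 : k * k * (cj k * cj k) = 1 := by
    rw [← map_mul, hk, map_mul, cj_cj, mul_assoc, ← mul_assoc (cj h.1), ← map_mul, h.mul_inv,
      map_one, one_mul, h.inv_mul]
  have a2 : k * cj k = 1 := by
    have := k2 (of.symm (k * cj k - 1)) (by
      simp only [Equiv.apply_symm_apply]
      have : k * (k * cj k - 1) * cj k + (k * cj k - 1) = k * k * (cj k * cj k) - 1 := by
        noncomm_ring
      rw [this, a1, sub_self]; rfl)
    exact sub_eq_zero.1 this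
  have a3 : k *ᵥ y = y := by
    have h4 : (k * k) *ᵥ y = y := by
      rw [cj_vec, hy] at hy'
      rw [hk, ← mulVec_mulVec, hy', mulVec_mulVec, h.inv_mul, one_mulVec]
    refine sub_eq_zero.1 (k1 _ ?_)
    rw [mulVec_sub, mulVec_mulVec, h4]; abel
  have a4 : ∀ a b, (k * k) *ᵥ mul c a b = mul c ((k * k) *ᵥ a) ((k * k) *ᵥ b) := by
    have h5 : Eqn c (cj h.1) := fun i j l => by
      have := congrArg (starRingEnd ℂ) ((eqn_iff c _).1 hA i j l)
      simpa [cj, hc] using this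
    intro a b
    rw [hk, ← mulVec_mulVec, (eqn_iff c _).2 h5, (Aut c).inv_mem hA, mulVec_mulVec, mulVec_mulVec]
  have a5 : ∀ a b, k *ᵥ mul c a b = mul c (k *ᵥ a) (k *ᵥ b) := by
    set B := (mulL c).compr₂ (mulVecLin k) - (mulL c).compl₁₂ (mulVecLin k) (mulVecLin k) with hB
    have hB' : ∀ a b, B a b = k *ᵥ mul c a b - mul c (k *ᵥ a) (k *ᵥ b) := fun a b => rfl
    have := k3 (fun i j => B (Pi.single i 1) (Pi.single j 1)) (by
      funext i j
      simp only [mul_of]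
      rw [hB', hB', mulVec_sub, mulVec_mulVec, a4, mulVec_mulVec, mulVec_mulVec]
      simp)
    intro a b
    rw [← sub_eq_zero, ← hB', ← mul_of, this]
    ext; simp [mul]
  refine ⟨h * ⟨k, cj k, a2, mul_eq_one_comm.1 a2⟩,
    ⟨(Aut c).mul_mem hA (show (⟨k, cj k, a2, mul_eq_one_comm.1 a2⟩ : GL (Fin n) ℂ) ∈ Aut c from a5),
      ?_⟩, ?_⟩
  · have : cj h.1 = h.1 * (k * k) := by rw [hk, ← mul_assoc, h.mul_inv, one_mul]
    simp only [Units.val_mul, map_mul]
    rw [this, mul_assoc, mul_assoc, a2, mul_one]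
  · simp only [Units.val_mul]
    rw [← mulVec_mulVec, a3]

lemma aut_closed (c : Fin n → Fin n → Fin n → ℂ) : IsClosed (Aut c : Set (GL (Fin n) ℂ)) := by
  have : (Aut c : Set (GL (Fin n) ℂ)) =
      ⋂ a, ⋂ b, {g | g.1 *ᵥ mul c a b = mul c (g.1 *ᵥ a) (g.1 *ᵥ b)} := by
    ext g; simp only [Set.mem_iInter]; rfl
  rw [this]
  refine isClosed_iInter fun a => isClosed_iInter fun b => isClosed_eq ?_ ?_
  · exact Units.continuous_val.matrix_mulVec continuous_const
  · have ha := (Units.continuous_val (M := Matrix (Fin n) (Fin n) ℂ)).matrix_mulVec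
      (continuous_const (y := a))
    have hb := (Units.continuous_val (M := Matrix (Fin n) (Fin n) ℂ)).matrix_mulVec
      (continuous_const (y := b))
    unfold mul
    fun_prop

theorem real (c : Fin n → Fin n → Fin n → ℂ) (hc : ∀ i j k, starRingEnd ℂ (c i j k) = c i j k)
    {x y : Fin n → ℂ} (hx : star x = x)
    (h1 : y ∈ closure (orb (RAut c) x)) (h2 : x ∈ closure (orb (RAut c) y)) :
    y ∈ orb (RAut c) x := by
  have s1 : SecondCountableTopology (Matrix (Fin n) (Fin n) ℂ) :=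
    inferInstanceAs (SecondCountableTopology (Fin n → Fin n → ℂ))
  have s2 : SecondCountableTopology (Matrix (Fin n) (Fin n) ℂ)ᵐᵒᵖ :=
    MulOpposite.opHomeomorph.symm.secondCountableTopology
  have s3 : LocallyCompactSpace (Matrix (Fin n) (Fin n) ℂ) :=
    inferInstanceAs (LocallyCompactSpace (Fin n → Fin n → ℂ))
  have sc : SecondCountableTopology (GL (Fin n) ℂ) :=
    Units.isEmbedding_embedProduct.secondCountableTopology
  obtain ⟨V, hV, hV'⟩ := exists_nhds_split_inv (near c hc)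
  obtain ⟨K, hK, hKV, hKc⟩ := local_compact_nhds hV
  obtain ⟨s, hs, hs'⟩ := TopologicalSpace.countable_cover_nhds
    (f := fun h : GL (Fin n) ℂ => (fun v => v * h) '' K) fun h => by
      have := (Homeomorph.mulRight h).isOpenMap.image_mem_nhds hK
      simpa using this
  have := hs.to_subtype
  set Z := closure (orb (RAut c) x) with hZ
  have : CompleteSpace Z := isClosed_closure.completeSpace_coe
  have : Nonempty Z := ⟨⟨y, h1⟩⟩
  have le : ∀ z, orb (RAut c) z ⊆ orb (Aut c) z := fun z _ ⟨g, hg, e⟩ => ⟨g, hg.1, e⟩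
  let S : ℕ ⊕ s → Set (Fin n → ℂ) := Sum.elim
    (fun m => {z | ∀ g ∈ RAut c, 1 / ((m:ℝ) + 1) ≤ dist (g.1 *ᵥ z) x})
    fun h => (fun g : GL (Fin n) ℂ => g.1 *ᵥ x) '' ((Aut c : Set _) ∩ (fun v => v * h.1) '' K)
  obtain ⟨i, hi⟩ := nonempty_interior_of_iUnion_of_closed (f := fun i => ((↑) : Z → _) ⁻¹' S i)
    (fun i => IsClosed.preimage continuous_subtype_val (by
      rcases i with m | h
      · simp only [S, Sum.elim_inl, Set.ofPred_forall]
        exact isClosed_iInter fun g => isClosed_iInter fun _ =>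
          isClosed_le continuous_const (by fun_prop)
      · exact (((hKc.image (continuous_mul_const _)).inter_left (aut_closed c)).image
          (Units.continuous_val.matrix_mulVec continuous_const)).isClosed))
    (Set.eq_univ_of_forall fun z => by
      rw [Set.mem_iUnion]
      by_cases hz : x ∈ closure (orb (RAut c) z.1)
      · obtain ⟨g, hg, e⟩ := cplx c (closure_mono (le x) z.2) (closure_mono (le _) hz)
        obtain ⟨h, hh, hh'⟩ := Set.mem_iUnion₂.1 (hs'.symm ▸ Set.mem_univ g)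
        exact ⟨Sum.inr ⟨h, hh⟩, g, ⟨hg, hh'⟩, e⟩
      · rw [Metric.mem_closure_iff] at hz
        push Not at hz
        obtain ⟨ε, hε, hz⟩ := hz
        obtain ⟨m, hm⟩ := exists_nat_one_div_lt hε
        exact ⟨Sum.inl m, fun g hg => hm.le.trans (dist_comm x _ ▸ hz _ ⟨g, hg, rfl⟩)⟩)
  obtain ⟨z, hz⟩ := hi
  rw [mem_interior_iff_mem_nhds, mem_nhds_subtype] at hz
  obtain ⟨O, hO, hO'⟩ := hz
  have hit : ∀ w, w ∈ Z → x ∈ closure (orb (RAut c) w) → ∃ g ∈ RAut c, g.1 *ᵥ w ∈ S i := by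
    intro w w1 w2
    obtain ⟨_, k1, g, hg, rfl⟩ := mem_closure_iff_nhds.1 (orb_sub _ w2 z.2) O hO
    exact ⟨g, hg, hO' (a := ⟨_, orb_sub _ w1 (subset_closure ⟨g, hg, rfl⟩)⟩) k1⟩
  have x0 : x ∈ Z := subset_closure ⟨1, (RAut c).one_mem, by simp⟩
  obtain ⟨g1, a1, b1⟩ := hit x x0 x0
  obtain ⟨g2, a2, b2⟩ := hit y h1 h2
  rcases i with m | h
  · have := b1 g1⁻¹ ((RAut c).inv_mem a1)
    rw [mulVec_mulVec, g1.inv_mul, one_mulVec, dist_self] at this
    exact absurd this (not_le.2 (by positivity))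
  obtain ⟨_, ⟨c1, v1, d1, rfl⟩, e1⟩ := b1
  obtain ⟨_, ⟨c2, v2, d2, rfl⟩, e2⟩ := b2
  have re : ∀ z ∈ Z, star z = z := closure_minimal (by
    rintro _ ⟨g, hg, rfl⟩
    show star _ = _
    rw [cj_vec, hg.2, hx]) (isClosed_eq continuous_star continuous_id)
  have e3 : (v2 / v1).1 *ᵥ (g1.1 *ᵥ x) = g2.1 *ᵥ y := by
    simp only at e1 e2
    rw [← e1, ← e2, mulVec_mulVec, ← Units.val_mul]
    congr 2
    simp [div_eq_mul_inv]
  obtain ⟨g, hg, e4⟩ := hV' v2 (hKV d2) v1 (hKV d1)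
    (by simpa [div_eq_mul_inv] using (Aut c).mul_mem c2 ((Aut c).inv_mem c1)) (g1.1 *ᵥ x)
    (re _ (subset_closure ⟨g1, a1, rfl⟩))
    (by rw [e3]; exact re _ (orb_sub _ h1 (subset_closure ⟨g2, a2, rfl⟩)))
  refine ⟨g2⁻¹ * g * g1, (RAut c).mul_mem ((RAut c).mul_mem ((RAut c).inv_mem a2) hg) a1, ?_⟩
  rw [Units.val_mul, Units.val_mul, ← mulVec_mulVec, ← mulVec_mulVec, e4, e3, mulVec_mulVec,
    g2.inv_mul, one_mulVec]

end Pool.Agent.H.MP_fbf57d_al
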